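import Pool.Agent.helper58.FI4E.Spec

set_option autoImplicit false

namespace Pool.Agent.FI4E

open Pool.Agent.helper58.DC Pool.Agent.DI Pool.Agent.GR Pool.Agent.OB Pool.Agent.DR Pool.Agent.FI Pool.Agent.FI3 Pool.Agent.FI4 Pool.Agent.FI4I

open Classical in
theorem FNC_aux {Γ : Type} [Group Γ] [Finite Γ] [Fintype (Subgroup Γ)] (S : Set (Finset (Subgroup Γ))) (N : Subgroup Γ)
    (g : Subgroup Γ → ℂ) :
    ∑ᶠ C ∈ S, (-1 : ℂ) ^ (C.card + 1) * g (N ⊓ nrm C) =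
      ∑ K : Subgroup Γ, g K * ((∑ᶠ C ∈ S, (-1 : ℤ) ^ (C.card + 1) *
        (if N ⊓ nrm C = K then (1 : ℤ) else 0) : ℤ) : ℂ) := by
  have hS : S.Finite := Set.toFinite S
  rw [finsum_mem_eq_finite_toFinset_sum _ hS]
  have h1 : ∀ K : Subgroup Γ, g K * ((∑ᶠ C ∈ S, (-1 : ℤ) ^ (C.card + 1) *
        (if N ⊓ nrm C = K then (1 : ℤ) else 0) : ℤ) : ℂ) =
      ∑ C ∈ hS.toFinset, (-1 : ℂ) ^ (C.card + 1) * (if N ⊓ nrm C = K then g K else 0) := by
    intro K
    rw [finsum_mem_eq_finite_toFinset_sum _ hS, Int.cast_sum, Finset.mul_sum]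
    refine Finset.sum_congr rfl fun C _ => ?_
    by_cases h : N ⊓ nrm C = K
    · simp [h, mul_comm]
    · simp [h]
  rw [Finset.sum_congr rfl fun K _ => h1 K, Finset.sum_comm]
  refine Finset.sum_congr rfl fun C _ => ?_
  rw [← Finset.mul_sum, Finset.sum_ite_eq]
  simp

theorem FNC (hFNO : FNO_stmt) : FNC_stmt := by
  classical
  intro Γ _ _ p _ L P N g hP hPL
  haveI : Fintype (Subgroup Γ) := Fintype.ofFinite _
  rw [FNC_aux, FNC_aux]
  refine Finset.sum_congr rfl fun K _ => ?_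
  have h := hFNO Γ p L P N (fun K' => if K' = K then 1 else 0) hP hPL
  unfold cSum at h
  rw [h]

end Pool.Agent.FI4E
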