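import Pool.Agent.helper58.FI4E.Spec

set_option autoImplicit false

namespace Pool.Agent.FI4E

open Pool.Agent.helper58.DC Pool.Agent.DI Pool.Agent.GR Pool.Agent.OB Pool.Agent.DR Pool.Agent.FI Pool.Agent.FI3 Pool.Agent.FI4 Pool.Agent.FI4I

theorem PRP_pow {R : Type} [Ring R] (E P : R) (hE : E * E = E) (hc : P * E = E * P) (j : ℕ) :
    (E * P + (1 - E)) ^ j = E * P ^ j + (1 - E) := by
  induction j with
  | zero => rw [pow_zero, pow_zero, mul_one]; abel
  | succ j ih =>
    have hcj : P ^ j * E = E * P ^ j := (Commute.pow_left hc j : Commute (P ^ j) E)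
    have h1 : E * P ^ j * (E * P) = E * P ^ (j + 1) := by
      rw [pow_succ, mul_assoc, ← mul_assoc (P ^ j) E P, hcj, mul_assoc E (P ^ j) P, ← mul_assoc E E, hE]
    have h2 : E * P ^ j * (1 - E) = 0 := by
      rw [mul_sub, mul_one, mul_assoc, hcj, ← mul_assoc, hE, sub_self]
    have h3 : (1 - E) * (E * P) = 0 := by
      rw [← mul_assoc, sub_mul, one_mul, hE, sub_self, zero_mul]
    have h4 : (1 - E) * (1 - E) = 1 - E := by
      rw [mul_sub, mul_one, sub_mul, one_mul, hE, sub_self, sub_zero]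
    rw [pow_succ, ih, add_mul, mul_add, mul_add, h1, h2, h3, h4]
    abel

theorem PRP (hLIN : LIN_stmt) : PRP_stmt := by
  intro ι _ _ E P l m₁ m₂ k hE
  induction m₂ using Nat.strong_induction_on generalizing P with
  | _ m₂ ih =>
    intro hc hm₁ hm₂ hP htr hr hq hk
    by_cases h1 : m₂ = 1
    · subst h1
      rw [mul_one] at hP
      have h2 : P ^ k = P ^ 1 := pow_eq_pow_of_modEq hk hP
      rw [h2, pow_one]
    · have hqp : (Nat.minFac m₂).Prime := Nat.minFac_prime h1
      have hqd : Nat.minFac m₂ ∣ m₂ := Nat.minFac_dvd m₂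
      have hF := hLIN ι E P l (m₁ * m₂) (Nat.minFac m₂) hE hc hP htr hr hqp (hq _ hqp hqd)
        (hqd.mul_left m₁) (Nat.mul_pos hm₁ hm₂)
      rw [Nat.mul_div_assoc _ hqd] at hF
      have hpow := PRP_pow E P hE hc
      have hEj : ∀ j : ℕ, E * (E * P + (1 - E)) ^ j = E * P ^ j := by
        intro j
        rw [hpow, mul_add, ← mul_assoc, hE, mul_sub, mul_one, hE, sub_self, add_zero]
      have hc' : (E * P + (1 - E)) * E = E * (E * P + (1 - E)) := by
        rw [add_mul, mul_add, mul_assoc, hc, sub_mul, mul_sub, one_mul, mul_one]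
      have h3 := ih (m₂ / Nat.minFac m₂) (Nat.div_lt_self hm₂ hqp.one_lt) (E * P + (1 - E)) hc' hm₁
        (Nat.div_pos (Nat.le_of_dvd hm₂ hqd) hqp.pos) (by rw [hpow, hF]; abel) htr
        (fun j => by rw [hEj]; exact hr j)
        (fun q hq1 hq2 => hq q hq1 (hq2.trans (Nat.div_dvd_of_dvd hqd))) hk
      rw [hEj] at h3
      have h4 := hEj 1
      rw [pow_one, pow_one] at h4
      rw [h3, h4]

end Pool.Agent.FI4E
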