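import Pool.Agent.helper58.FI4E.Spec

set_option autoImplicit false

namespace Pool.Agent.FI4E

open Pool.Agent.helper58.DC Pool.Agent.DI Pool.Agent.GR Pool.Agent.OB Pool.Agent.DR Pool.Agent.FI Pool.Agent.FI3 Pool.Agent.FI4 Pool.Agent.FI4I

theorem TSI_fun (hB2 : B2_stmt) {G : Type} [Group G] [Finite G] (H : Subgroup G) (α : MulAut G)
    (hH : am α H = H) (n : G) (hn : n ∈ H) (ψ : G → ℂ) (hψ : ψ ∈ IrrOn H) :
    funMap (al α n) ψ = funMap α ψ := by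
  have hm : α⁻¹ n ∈ H := by
    have h1 : n ∈ am α H := by rw [hH]; exact hn
    exact mem_am.1 h1
  funext x
  simp only [funMap]
  rw [al_inv_apply, map_mul, map_mul, map_inv]
  have h2 := (((hB2 G H).2 ψ hψ).2.1) (α⁻¹ x) (α⁻¹ n)⁻¹ (H.inv_mem hm)
  rw [inv_inv] at h2
  exact h2

theorem TSI (hB2 : B2_stmt) (hBAA : BAA_stmt) : TSI_stmt := by
  intro p G _ _ H α hH n hn
  have h1 := TSI_fun hB2 H α hH n hn
  refine ⟨h1, ?_⟩
  intro S hS
  unfold tS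
  refine finsum_mem_congr rfl fun ψ hψ => ?_
  rw [h1 ψ (hS hψ)]

end Pool.Agent.FI4E
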